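import Mathlib
import Pool.Agent.Helper36.LadderLabels

set_option autoImplicit false

/-!
# Super edge-magic ladders of even length

For every even `n ≥ 2`, the ladder `L_n = P_n □ P_2` is super edge-magic if and only if `n ≥ 4`.
-/

namespace Pool.Agent.Results.MP_4fbecc_co.EvenLadders

open SimpleGraph Pool.Agent.Helper36.LadderLabels

/-- `f : V ∪ E → ℕ` is an edge-magic labeling of `G`: it is a bijection onto `{1, …, p + q}`,
where `p` and `q` are the numbers of vertices and edges of `G`, and for some constant `σ` one has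
`f(u) + f(uv) + f(v) = σ` for every edge `uv`. -/
def IsEdgeMagicLabeling {V : Type*} (G : SimpleGraph V) (f : V ⊕ G.edgeSet → ℕ) : Prop :=
  Set.BijOn f Set.univ (Set.Icc 1 (Nat.card V + Nat.card G.edgeSet)) ∧
    ∃ σ : ℕ, ∀ (u v : V) (h : G.Adj u v),
      f (Sum.inl u) + f (Sum.inr ⟨s(u, v), h⟩) + f (Sum.inl v) = σ

/-- `G` is super edge-magic: it has an edge-magic labeling `f` with `f(V) = {1, …, p}`. -/
def IsSuperEdgeMagic {V : Type*} (G : SimpleGraph V) : Prop :=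
  ∃ f : V ⊕ G.edgeSet → ℕ, IsEdgeMagicLabeling G f ∧
    f '' Set.range Sum.inl = Set.Icc 1 (Nat.card V)

/-- The ladder `L_n = P_n □ P_2`. -/
def ladder (n : ℕ) : SimpleGraph (Fin n × Fin 2) := pathGraph n □ pathGraph 2

/-! ## A sufficient criterion -/

lemma sem_of_cover {V : Type*} [Finite V] (G : SimpleGraph V) (f : V → ℕ) (s Q : ℕ)
    (hV : ∀ l, 1 ≤ l → l ≤ Nat.card V → ∃ v, f v = l)
    (hE : ∀ t, s ≤ t → t < s + Q → ∃ u v, G.Adj u v ∧ f u + f v = t)
    (hQ : Nat.card G.edgeSet ≤ Q) : IsSuperEdgeMagic G := by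
  classical
  have _ : Fintype V := Fintype.ofFinite V
  have _ : Fintype G.edgeSet := Fintype.ofFinite _
  set p := Nat.card V with hp
  -- the vertex labels
  have hcardV : (Finset.univ : Finset V).card = p := by
    rw [Finset.card_univ, hp, Nat.card_eq_fintype_card]
  have hsubV : Finset.Icc 1 p ⊆ Finset.univ.image f := by
    intro l hl
    rw [Finset.mem_Icc] at hl
    obtain ⟨v, hv⟩ := hV l hl.1 hl.2
    exact Finset.mem_image.mpr ⟨v, Finset.mem_univ v, hv⟩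
  have hcard1 : (Finset.univ.image f).card ≤ (Finset.Icc 1 p).card := by
    refine Finset.card_image_le.trans ?_
    rw [hcardV, Nat.card_Icc]; omega
  have heqV : Finset.Icc 1 p = Finset.univ.image f := Finset.eq_of_subset_of_card_le hsubV hcard1
  have hinjV : Function.Injective f := by
    have h1 : (Finset.univ.image f).card = (Finset.univ : Finset V).card := by
      rw [← heqV, hcardV, Nat.card_Icc]; omega
    have h2 := Finset.card_image_iff.mp h1
    intro a b hab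
    exact h2 (Finset.mem_coe.mpr (Finset.mem_univ a)) (Finset.mem_coe.mpr (Finset.mem_univ b)) hab
  have hrangeV : ∀ v, 1 ≤ f v ∧ f v ≤ p := by
    intro v
    have : f v ∈ Finset.Icc 1 p := by
      rw [heqV]; exact Finset.mem_image_of_mem f (Finset.mem_univ v)
    exact Finset.mem_Icc.mp this
  -- the edge sums
  let S : Sym2 V → ℕ := Sym2.lift ⟨fun u v => f u + f v, fun u v => Nat.add_comm _ _⟩
  have hS : ∀ u v, S s(u, v) = f u + f v := fun u v => rfl
  let T : G.edgeSet → ℕ := fun e => S e.1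
  have hcardE : (Finset.univ : Finset G.edgeSet).card = Nat.card G.edgeSet := by
    rw [Finset.card_univ, Nat.card_eq_fintype_card]
  have hsubE : Finset.Ico s (s + Q) ⊆ Finset.univ.image T := by
    intro t ht
    rw [Finset.mem_Ico] at ht
    obtain ⟨u, v, huv, hsum⟩ := hE t ht.1 ht.2
    exact Finset.mem_image.mpr ⟨⟨s(u, v), huv⟩, Finset.mem_univ _, hsum⟩
  have hcard2 : (Finset.univ.image T).card ≤ (Finset.Ico s (s + Q)).card := by
    refine Finset.card_image_le.trans ?_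
    rw [hcardE, Nat.card_Ico]; omega
  have heqE : Finset.Ico s (s + Q) = Finset.univ.image T :=
    Finset.eq_of_subset_of_card_le hsubE hcard2
  have hQ' : Nat.card G.edgeSet = Q := by
    apply le_antisymm hQ
    have h1 : (Finset.Ico s (s + Q)).card ≤ (Finset.univ : Finset G.edgeSet).card := by
      rw [heqE]; exact Finset.card_image_le
    rw [hcardE, Nat.card_Ico] at h1
    omega
  have hinjE : Function.Injective T := by
    have h1 : (Finset.univ.image T).card = (Finset.univ : Finset G.edgeSet).card := by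
      rw [← heqE, hcardE, Nat.card_Ico, hQ']; omega
    have h2 := Finset.card_image_iff.mp h1
    intro a b hab
    exact h2 (Finset.mem_coe.mpr (Finset.mem_univ a)) (Finset.mem_coe.mpr (Finset.mem_univ b)) hab
  have hrangeE : ∀ e, s ≤ T e ∧ T e < s + Q := by
    intro e
    have : T e ∈ Finset.Ico s (s + Q) := by
      rw [heqE]; exact Finset.mem_image_of_mem T (Finset.mem_univ e)
    exact Finset.mem_Ico.mp this
  -- the labeling
  refine ⟨Sum.elim f (fun e => p + Q + s - T e), ⟨⟨?_, ?_, ?_⟩, p + Q + s, ?_⟩, ?_⟩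
  · rintro (v | e) -
    · have := hrangeV v
      simp only [Sum.elim_inl, Set.mem_Icc]
      omega
    · have := hrangeE e
      simp only [Sum.elim_inr, Set.mem_Icc]
      omega
  · rintro (v | e) - (v' | e') - h
    · simp only [Sum.elim_inl] at h
      rw [hinjV h]
    · simp only [Sum.elim_inl, Sum.elim_inr] at h
      have h1 := hrangeV v
      have h2 := hrangeE e'
      omega
    · simp only [Sum.elim_inl, Sum.elim_inr] at h
      have h1 := hrangeV v'
      have h2 := hrangeE e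
      omega
    · simp only [Sum.elim_inr] at h
      have h1 := hrangeE e
      have h2 := hrangeE e'
      have h3 : T e = T e' := by omega
      rw [hinjE h3]
  · intro l hl
    rw [Set.mem_Icc, hQ'] at hl
    by_cases hlp : l ≤ p
    · obtain ⟨v, hv⟩ := hV l hl.1 hlp
      exact ⟨Sum.inl v, Set.mem_univ _, hv⟩
    · have h1 : p + Q + s - l ∈ Finset.Ico s (s + Q) := by
        rw [Finset.mem_Ico]; omega
      rw [heqE] at h1
      obtain ⟨e, -, he⟩ := Finset.mem_image.mp h1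
      refine ⟨Sum.inr e, Set.mem_univ _, ?_⟩
      simp only [Sum.elim_inr]
      omega
  · intro u v h
    simp only [Sum.elim_inl, Sum.elim_inr]
    have h1 := hrangeE ⟨s(u, v), h⟩
    have h2 : T ⟨s(u, v), h⟩ = f u + f v := rfl
    omega
  · ext l
    simp only [Set.mem_image, Set.mem_range, Set.mem_Icc]
    constructor
    · rintro ⟨_, ⟨v, rfl⟩, rfl⟩
      exact hrangeV v
    · rintro ⟨h1, h2⟩
      obtain ⟨v, hv⟩ := hV l h1 h2
      exact ⟨Sum.inl v, ⟨v, rfl⟩, hv⟩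

/-! ## The ladder -/

lemma ladder_adj {n : ℕ} (x y : Fin n × Fin 2) :
    (ladder n).Adj x y ↔
      ((x.1.val + 1 = y.1.val ∨ y.1.val + 1 = x.1.val) ∧ x.2 = y.2) ∨
      ((x.2.val + 1 = y.2.val ∨ y.2.val + 1 = x.2.val) ∧ x.1 = y.1) := by
  unfold ladder
  rw [boxProd_adj, pathGraph_adj, pathGraph_adj]

/-- The ladder has at most `3n - 2` edges. -/
lemma card_edges_le (n : ℕ) (hn : 1 ≤ n) : Nat.card (ladder n).edgeSet ≤ 3 * n - 2 := by
  classical
  have hcard : Nat.card ((Fin (n - 1) × Fin 2) ⊕ Fin n) = 3 * n - 2 := by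
    simp only [Nat.card_eq_fintype_card, Fintype.card_sum, Fintype.card_prod, Fintype.card_fin]
    omega
  rw [← hcard]
  let F : (Fin (n - 1) × Fin 2) ⊕ Fin n → (ladder n).edgeSet :=
    Sum.elim
      (fun x => ⟨s((⟨x.1.val, by omega⟩, x.2), (⟨x.1.val + 1, by omega⟩, x.2)), by
        rw [mem_edgeSet, ladder_adj]; left; exact ⟨Or.inl rfl, rfl⟩⟩)
      (fun i => ⟨s((i, 0), (i, 1)), by
        rw [mem_edgeSet, ladder_adj]; right; exact ⟨Or.inl rfl, rfl⟩⟩)
  have hF : Function.Surjective F := by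
    rintro ⟨e, he⟩
    induction e using Sym2.ind with
    | _ x y =>
      rw [mem_edgeSet, ladder_adj] at he
      obtain ⟨⟨i, hi⟩, r⟩ := x
      obtain ⟨⟨j, hj⟩, r'⟩ := y
      simp only [Fin.mk.injEq] at he
      rcases he with ⟨h1 | h1, h2⟩ | ⟨h1 | h1, h2⟩
      · subst h2
        refine ⟨Sum.inl (⟨i, by omega⟩, r), ?_⟩
        apply Subtype.ext
        subst h1
        rfl
      · subst h2
        refine ⟨Sum.inl (⟨j, by omega⟩, r), ?_⟩
        apply Subtype.ext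
        subst h1
        exact Sym2.eq_swap
      · subst h2
        refine ⟨Sum.inr ⟨i, hi⟩, ?_⟩
        apply Subtype.ext
        have hr : r = 0 := by
          apply Fin.ext; have := r'.isLt; simp only [Fin.val_zero]; omega
        have hr' : r' = 1 := by
          apply Fin.ext; have := r'.isLt; simp only [Fin.val_one]; omega
        subst hr
        subst hr'
        rfl
      · subst h2
        refine ⟨Sum.inr ⟨i, hi⟩, ?_⟩
        apply Subtype.ext
        have hr : r' = 0 := by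
          apply Fin.ext; have := r.isLt; simp only [Fin.val_zero]; omega
        have hr' : r = 1 := by
          apply Fin.ext; have := r.isLt; simp only [Fin.val_one]; omega
        subst hr
        subst hr'
        exact Sym2.eq_swap
  exact Nat.card_le_card_of_surjective F hF

/-- A criterion for ladders, with the rows labelled by functions `U, V` of `i = 1, …, n`. -/
lemma ladder_sem (n : ℕ) (hn : 1 ≤ n) (U V : ℕ → ℕ) (s : ℕ)
    (h1 : ∀ l, 1 ≤ l → l ≤ 2 * n → ∃ i, 1 ≤ i ∧ i ≤ n ∧ (U i = l ∨ V i = l))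
    (h2 : ∀ t, s ≤ t → t < s + (3 * n - 2) → ∃ i, 1 ≤ i ∧ i ≤ n ∧
      (U i + V i = t ∨ (i < n ∧ (U i + U (i + 1) = t ∨ V i + V (i + 1) = t)))) :
    IsSuperEdgeMagic (ladder n) := by
  have hcard : Nat.card (Fin n × Fin 2) = 2 * n := by
    simp only [Nat.card_eq_fintype_card, Fintype.card_prod, Fintype.card_fin]
    omega
  refine sem_of_cover (ladder n) (fun x => if x.2 = 0 then U (x.1.val + 1) else V (x.1.val + 1))
    s (3 * n - 2) ?_ ?_ (card_edges_le n hn)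
  · intro l hl1 hl2
    rw [hcard] at hl2
    obtain ⟨i, hi1, hi2, hi3⟩ := h1 l hl1 hl2
    have hi : i - 1 + 1 = i := by omega
    rcases hi3 with h | h
    · refine ⟨(⟨i - 1, by omega⟩, 0), ?_⟩
      simp only [hi, if_true]
      exact h
    · refine ⟨(⟨i - 1, by omega⟩, 1), ?_⟩
      simp only [hi, one_ne_zero, if_false]
      exact h
  · intro t ht1 ht2
    obtain ⟨i, hi1, hi2, hi3⟩ := h2 t ht1 ht2
    have hi : i - 1 + 1 = i := by omega
    rcases hi3 with h | ⟨hlt, h | h⟩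
    · refine ⟨(⟨i - 1, by omega⟩, 0), (⟨i - 1, by omega⟩, 1), ?_, ?_⟩
      · rw [ladder_adj]; right; exact ⟨Or.inl rfl, rfl⟩
      · simp only [hi, if_true, one_ne_zero, if_false]
        exact h
    · refine ⟨(⟨i - 1, by omega⟩, 0), (⟨i - 1 + 1, by omega⟩, 0), ?_, ?_⟩
      · rw [ladder_adj]; left; exact ⟨Or.inl rfl, rfl⟩
      · simp only [hi, if_true]
        exact h
    · refine ⟨(⟨i - 1, by omega⟩, 1), (⟨i - 1 + 1, by omega⟩, 1), ?_, ?_⟩
      · rw [ladder_adj]; left; exact ⟨Or.inl rfl, rfl⟩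
      · simp only [hi, one_ne_zero, if_false]
        exact h

/-! ## The ladders `L_4` and `L_6` -/

lemma sem_four : IsSuperEdgeMagic (ladder 4) := by
  refine ladder_sem 4 (by norm_num) (fun i => ![0, 5, 1, 3, 4, 0, 0, 0] (Fin.ofNat 8 i))
    (fun i => ![0, 6, 7, 2, 8, 0, 0, 0] (Fin.ofNat 8 i)) 4 ?_ ?_
  · intro l h1 h2
    have h3 : ∀ l : ℕ, l < 9 → 1 ≤ l → ∃ i < 5, 1 ≤ i ∧
        (![0, 5, 1, 3, 4, 0, 0, 0] (Fin.ofNat 8 i) = l ∨
          ![0, 6, 7, 2, 8, 0, 0, 0] (Fin.ofNat 8 i) = l) := by decide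
    obtain ⟨i, hi1, hi2, hi3⟩ := h3 l (by omega) h1
    exact ⟨i, hi2, by omega, hi3⟩
  · intro t h1 h2
    have h3 : ∀ t : ℕ, t < 14 → 4 ≤ t → ∃ i < 5, 1 ≤ i ∧
        (![0, 5, 1, 3, 4, 0, 0, 0] (Fin.ofNat 8 i) +
            ![0, 6, 7, 2, 8, 0, 0, 0] (Fin.ofNat 8 i) = t ∨
          (i < 4 ∧ (![0, 5, 1, 3, 4, 0, 0, 0] (Fin.ofNat 8 i) +
            ![0, 5, 1, 3, 4, 0, 0, 0] (Fin.ofNat 8 (i + 1)) = t ∨
            ![0, 6, 7, 2, 8, 0, 0, 0] (Fin.ofNat 8 i) +
            ![0, 6, 7, 2, 8, 0, 0, 0] (Fin.ofNat 8 (i + 1)) = t))) := by decide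
    obtain ⟨i, hi1, hi2, hi3⟩ := h3 t (by omega) h1
    exact ⟨i, hi2, by omega, hi3⟩

lemma sem_six : IsSuperEdgeMagic (ladder 6) := by
  refine ladder_sem 6 (by norm_num) (fun i => ![0, 5, 1, 6, 12, 4, 8, 0] (Fin.ofNat 8 i))
    (fun i => ![0, 10, 7, 3, 2, 9, 11, 0] (Fin.ofNat 8 i)) 5 ?_ ?_
  · intro l h1 h2
    have h3 : ∀ l : ℕ, l < 13 → 1 ≤ l → ∃ i < 7, 1 ≤ i ∧
        (![0, 5, 1, 6, 12, 4, 8, 0] (Fin.ofNat 8 i) = l ∨
          ![0, 10, 7, 3, 2, 9, 11, 0] (Fin.ofNat 8 i) = l) := by decide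
    obtain ⟨i, hi1, hi2, hi3⟩ := h3 l (by omega) h1
    exact ⟨i, hi2, by omega, hi3⟩
  · intro t h1 h2
    have h3 : ∀ t : ℕ, t < 21 → 5 ≤ t → ∃ i < 7, 1 ≤ i ∧
        (![0, 5, 1, 6, 12, 4, 8, 0] (Fin.ofNat 8 i) +
            ![0, 10, 7, 3, 2, 9, 11, 0] (Fin.ofNat 8 i) = t ∨
          (i < 6 ∧ (![0, 5, 1, 6, 12, 4, 8, 0] (Fin.ofNat 8 i) +
            ![0, 5, 1, 6, 12, 4, 8, 0] (Fin.ofNat 8 (i + 1)) = t ∨
            ![0, 10, 7, 3, 2, 9, 11, 0] (Fin.ofNat 8 i) +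
            ![0, 10, 7, 3, 2, 9, 11, 0] (Fin.ofNat 8 (i + 1)) = t))) := by decide
    obtain ⟨i, hi1, hi2, hi3⟩ := h3 t (by omega) h1
    exact ⟨i, hi2, by omega, hi3⟩

/-! ## The ladder `L_2` -/

lemma not_sem_two : ¬ IsSuperEdgeMagic (ladder 2) := by
  classical
  rintro ⟨f, ⟨⟨hmaps, hinj, hsurj⟩, σ, hσ⟩, himg⟩
  have hp : Nat.card (Fin 2 × Fin 2) = 4 := by
    simp only [Nat.card_eq_fintype_card, Fintype.card_prod, Fintype.card_fin]
  rw [hp] at hmaps hsurj himg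
  -- the four edges
  have a1 : (ladder 2).Adj (0, 0) (1, 0) := by rw [ladder_adj]; left; exact ⟨Or.inl rfl, rfl⟩
  have a2 : (ladder 2).Adj (0, 1) (1, 1) := by rw [ladder_adj]; left; exact ⟨Or.inl rfl, rfl⟩
  have a3 : (ladder 2).Adj (0, 0) (0, 1) := by rw [ladder_adj]; right; exact ⟨Or.inl rfl, rfl⟩
  have a4 : (ladder 2).Adj (1, 0) (1, 1) := by rw [ladder_adj]; right; exact ⟨Or.inl rfl, rfl⟩
  have e1 := hσ _ _ a1
  have e2 := hσ _ _ a2
  have e3 := hσ _ _ a3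
  have e4 := hσ _ _ a4
  -- vertex labels
  have hv : ∀ v : Fin 2 × Fin 2, 1 ≤ f (Sum.inl v) ∧ f (Sum.inl v) ≤ 4 := by
    intro v
    have h : f (Sum.inl v) ∈ f '' Set.range Sum.inl := ⟨Sum.inl v, ⟨v, rfl⟩, rfl⟩
    rw [himg] at h
    exact h
  have hq : Nat.card (ladder 2).edgeSet ≤ 4 := card_edges_le 2 (by norm_num)
  have hne : ∀ x y : (Fin 2 × Fin 2) ⊕ (ladder 2).edgeSet, x ≠ y → f x ≠ f y :=
    fun x y hxy h => hxy (hinj (Set.mem_univ x) (Set.mem_univ y) h)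
  have hne' : ∀ e e' : (ladder 2).edgeSet, e.1 ≠ e'.1 → f (Sum.inr e) ≠ f (Sum.inr e') :=
    fun e e' h => hne _ _ (fun hh => h (congrArg Subtype.val (Sum.inr.inj hh)))
  -- edge labels
  have hw : ∀ e : (ladder 2).edgeSet, 5 ≤ f (Sum.inr e) ∧ f (Sum.inr e) ≤ 8 := by
    intro e
    have h := hmaps (Set.mem_univ (Sum.inr e))
    rw [Set.mem_Icc] at h
    refine ⟨?_, by omega⟩
    by_contra hlt
    have h2 : f (Sum.inr e) ∈ Set.Icc 1 4 := by
      rw [Set.mem_Icc]; omega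
    rw [← himg] at h2
    obtain ⟨_, ⟨v, rfl⟩, hv2⟩ := h2
    exact hne (Sum.inl v) (Sum.inr e) (by simp) hv2
  have v1 := hv (0, 0)
  have v2 := hv (0, 1)
  have v3 := hv (1, 0)
  have v4 := hv (1, 1)
  have n1 := hne (Sum.inl (0, 0)) (Sum.inl (0, 1)) (by simp)
  have n2 := hne (Sum.inl (0, 0)) (Sum.inl (1, 0)) (by simp)
  have n3 := hne (Sum.inl (0, 0)) (Sum.inl (1, 1)) (by simp)
  have n4 := hne (Sum.inl (0, 1)) (Sum.inl (1, 0)) (by simp)
  have n5 := hne (Sum.inl (0, 1)) (Sum.inl (1, 1)) (by simp)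
  have n6 := hne (Sum.inl (1, 0)) (Sum.inl (1, 1)) (by simp)
  have w1 := hw ⟨s((0, 0), (1, 0)), a1⟩
  have w2 := hw ⟨s((0, 1), (1, 1)), a2⟩
  have w3 := hw ⟨s((0, 0), (0, 1)), a3⟩
  have w4 := hw ⟨s((1, 0), (1, 1)), a4⟩
  have m1 := hne' ⟨s((0, 0), (1, 0)), a1⟩ ⟨s((0, 1), (1, 1)), a2⟩
    (show (s((0, 0), (1, 0)) : Sym2 (Fin 2 × Fin 2)) ≠ s((0, 1), (1, 1)) by decide)
  have m2 := hne' ⟨s((0, 0), (1, 0)), a1⟩ ⟨s((0, 0), (0, 1)), a3⟩
    (show (s((0, 0), (1, 0)) : Sym2 (Fin 2 × Fin 2)) ≠ s((0, 0), (0, 1)) by decide)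
  have m3 := hne' ⟨s((0, 0), (1, 0)), a1⟩ ⟨s((1, 0), (1, 1)), a4⟩
    (show (s((0, 0), (1, 0)) : Sym2 (Fin 2 × Fin 2)) ≠ s((1, 0), (1, 1)) by decide)
  have m4 := hne' ⟨s((0, 1), (1, 1)), a2⟩ ⟨s((0, 0), (0, 1)), a3⟩
    (show (s((0, 1), (1, 1)) : Sym2 (Fin 2 × Fin 2)) ≠ s((0, 0), (0, 1)) by decide)
  have m5 := hne' ⟨s((0, 1), (1, 1)), a2⟩ ⟨s((1, 0), (1, 1)), a4⟩
    (show (s((0, 1), (1, 1)) : Sym2 (Fin 2 × Fin 2)) ≠ s((1, 0), (1, 1)) by decide)
  have m6 := hne' ⟨s((0, 0), (0, 1)), a3⟩ ⟨s((1, 0), (1, 1)), a4⟩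
    (show (s((0, 0), (0, 1)) : Sym2 (Fin 2 × Fin 2)) ≠ s((1, 0), (1, 1)) by decide)
  omega

/-- **Answer to Q1.**  For every even `n ≥ 2`, the ladder `L_n` is super edge-magic if and only
if `n ≥ 4`, i.e. exactly for the even integers `n ≥ 4`. -/
theorem result : ∀ n : ℕ, 2 ≤ n → Even n → (IsSuperEdgeMagic (ladder n) ↔ 4 ≤ n) := by
  intro n hn heven
  constructor
  · intro h
    by_contra hlt
    have h2 : n = 2 := by
      obtain ⟨k, hk⟩ := heven
      omega
    subst h2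
    exact not_sem_two h
  · intro h4
    obtain ⟨k, hk⟩ := heven
    by_cases h6 : n ≤ 6
    · have h46 : n = 4 ∨ n = 6 := by omega
      rcases h46 with rfl | rfl
      · exact sem_four
      · exact sem_six
    · by_cases hpar : k % 2 = 0
      · have hm : n = 4 * (k / 2) := by omega
        have hm2 : 2 ≤ k / 2 := by omega
        rw [hm]
        exact ladder_sem _ (by omega) (U0 (k / 2)) (V0 (k / 2)) (2 * (k / 2) + 3)
          (fun l h1 h2 => labels0 _ hm2 l h1 h2) (fun t h1 h2 => sums0 _ hm2 t h1 h2)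
      · have hm : n = 4 * (k / 2) + 2 := by omega
        have hm2 : 2 ≤ k / 2 := by omega
        rw [hm]
        exact ladder_sem _ (by omega) (U2 (k / 2)) (V2 (k / 2)) (2 * (k / 2) + 4)
          (fun l h1 h2 => labels2 _ hm2 l h1 h2) (fun t h1 h2 => sums2 _ hm2 t h1 h2)

end Pool.Agent.Results.MP_4fbecc_co.EvenLadders
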